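import Mathlib
import Pool.Agent.H96S.CI.W

/-!
# Malle's lower bound for groups with an involution whose conjugates have disjoint supports

`G ≤ S_n` is transitive and `v ∈ G` is an involution such that distinct conjugates of `v` in `G`
have disjoint supports (for example `v` central). The number of `G`-extensions of degree `n` of the
number field `K` with discriminant of norm at most `X` is at least `c X ^ (1 / ind v)` for large `X`
if and only if `G` is a Galois group over `K`. If `v` has the least index in `G`, the exponent is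
`a(G)`.

For a finite group `A` with a central involution and `m ≥ ((3 |A| + 2)!) ^ 3` the lower bound of
Malle's conjecture holds over every number field for `A ≀ S_m` in its natural action on
`A × {1, ..., m}`, where `a(G) = 2 / |A|`, and in its regular action, where `a(G) = 2 / |G|`.
-/

set_option autoImplicit false

open Filter
open Pool.Agent.TH444.TW (Cls)
open Pool.Agent.H391R2 (Wr)

namespace Pool.Agent.Results.MP_af4c59_nt.CentralInvolutions

/-- The index of a permutation: `n` minus the number of its cycles, fixed points included. -/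
def ind {n : ℕ} (g : Equiv.Perm (Fin n)) : ℕ := g.cycleType.sum - Multiset.card g.cycleType

/-- `a(G) = 1 / min ind(g)`, the minimum over the `g ≠ 1` in `G`. -/
noncomputable def a {n : ℕ} (G : Subgroup (Equiv.Perm (Fin n))) : ℝ :=
  1 / (sInf {j : ℕ | ∃ g ∈ G, g ≠ 1 ∧ j = ind g} : ℕ)

/-- `N_{n,K}(X; G)`: the number of fields `L` between `K` and its algebraic closure, of degree `n`
over `K`, whose Galois group, acting on the embeddings, is `G` (up to numbering), and whose relative
discriminant has norm at most `X` (that is, `|d_L| ≤ X |d_K| ^ n`). -/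
noncomputable def N (K : Type) [Field K] [NumberField K] (n : ℕ)
    (G : Subgroup (Equiv.Perm (Fin n))) (X : ℝ) : ℕ :=
  Set.ncard {L : IntermediateField K (AlgebraicClosure K) |
    Module.finrank K L = n ∧
    (∃ e : (L →ₐ[K] AlgebraicClosure K) ≃ Fin n, ∀ π : Equiv.Perm (Fin n),
      π ∈ G ↔ ∃ σ : AlgebraicClosure K ≃ₐ[K] AlgebraicClosure K,
        ∀ φ : L →ₐ[K] AlgebraicClosure K, e (σ.toAlgHom.comp φ) = π (e φ)) ∧
    ∃ h : NumberField L,
      ((|@NumberField.discr L _ h| : ℤ) : ℝ) ≤ X * ((|NumberField.discr K| : ℤ) : ℝ) ^ n}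

/-- The lower bound with exponent `r`: `c X ^ r ≤ N_{n,K}(X; G)` for some `c > 0` and all large
`X`. -/
def Lower (K : Type) [Field K] [NumberField K] (n : ℕ) (G : Subgroup (Equiv.Perm (Fin n)))
    (r : ℝ) : Prop :=
  ∃ c : ℝ, 0 < c ∧ ∃ X₀ : ℝ, ∀ X : ℝ, X₀ ≤ X → c * X ^ r ≤ N K n G X

/-- `G` is a transitive group of permutations. -/
def Transitive {n : ℕ} (G : Subgroup (Equiv.Perm (Fin n))) : Prop :=
  ∀ i j : Fin n, ∃ g ∈ G, g i = j

/-- `v` is an element of order two of `G`, and distinct conjugates of `v` in `G` have disjoint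
supports. -/
def DisjointConjugates {n : ℕ} {G : Subgroup (Equiv.Perm (Fin n))} (v : G) : Prop :=
  v * v = 1 ∧ v ≠ 1 ∧ ∀ g : G, g * v * g⁻¹ = v ∨ ∀ x, v.1 x = x ∨ (g * v * g⁻¹).1 x = x

/-- `z` is a central element of order two. -/
def CentralInvolution {G : Type} [Group G] (z : G) : Prop :=
  (∀ g, z * g = g * z) ∧ z * z = 1 ∧ z ≠ 1

/-- `G` is the Galois group of a finite Galois extension of `K`. -/
def IsGaloisGroupOver (K G : Type) [Field K] [Group G] : Prop :=
  ∃ L : IntermediateField K (AlgebraicClosure K), FiniteDimensional K L ∧ IsGalois K L ∧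
    Nonempty ((L ≃ₐ[K] L) ≃* G)

/-- `G` is, up to a bijection `f` of `{1, ..., n}` with `A × {1, ..., m}`, the wreath product
`A ≀ S_m`, of all permutations `(x, i) ↦ (b i x, ρ i)` with `ρ` in `S_m` and the `b i` in `A`. -/
def IsNaturalWreath (A : Type) [Group A] (m : ℕ) {n : ℕ} (G : Subgroup (Equiv.Perm (Fin n))) :
    Prop :=
  ∃ f : Fin n ≃ A × Fin m, ∀ π : Equiv.Perm (Fin n), π ∈ G ↔
    ∃ (ρ : Equiv.Perm (Fin m)) (b : Fin m → A), ∀ x, f (π x) = (b (f x).2 * (f x).1, ρ (f x).2)

theorem gal_iso {K G H : Type} [Field K] [Group G] [Group H] (e : G ≃* H)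
    (h : IsGaloisGroupOver K H) : IsGaloisGroupOver K G := by
  obtain ⟨L, h1, h2, ⟨f⟩⟩ := h
  exact ⟨L, h1, h2, ⟨f.trans e.symm⟩⟩

theorem central_iso {G H : Type} [Group G] [Group H] (e : G ≃* H)
    (h : ∃ z : H, CentralInvolution z) : ∃ z : G, CentralInvolution z := by
  obtain ⟨z, h1, h2, h3⟩ := h
  refine ⟨e.symm z, fun g => ?_, ?_, ?_⟩
  · apply e.injective
    rw [map_mul, map_mul, MulEquiv.apply_symm_apply, h1]
  · rw [← map_mul, h2, map_one]
  · intro h
    apply h3
    rw [← MulEquiv.apply_symm_apply e z, h, map_one]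

section

variable {n : ℕ} {G : Subgroup (Equiv.Perm (Fin n))}

theorem central_dc {z : G} (hz : CentralInvolution z) : DisjointConjugates z :=
  ⟨hz.2.1, hz.2.2, fun g => Or.inl (by rw [← hz.1 g, mul_inv_cancel_right])⟩

theorem pos_of_ne {v : G} (hv : v ≠ 1) : 0 < n := by
  rcases Nat.eq_zero_or_pos n with rfl | h
  · exact absurd (Subtype.ext (Subsingleton.elim _ _)) hv
  · exact h

theorem lower_iff (K : Type) [Field K] [NumberField K] (hG : Transitive G) {v : G}
    (hv : DisjointConjugates v) :
    Lower K n G (1 / (ind v.1 : ℕ)) ↔ IsGaloisGroupOver K G := by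
  have hn : 0 < n := pos_of_ne hv.2.1
  constructor
  · rintro ⟨c, hc, X₀, hX⟩
    refine Pool.Agent.H96S.CI.gal_of_CS K hn (X := max X₀ 1) ?_
    have h4 := hX (max X₀ 1) (le_max_left _ _)
    have h5 : (0 : ℝ) < max X₀ 1 := lt_of_lt_of_le one_pos (le_max_right _ _)
    have h6 : (0 : ℝ) < N K n G (max X₀ 1) := lt_of_lt_of_le (by positivity) h4
    have h7 : 0 < N K n G (max X₀ 1) := by exact_mod_cast h6
    exact Set.nonempty_of_ncard_ne_zero h7.ne'
  · intro h
    exact Pool.Agent.H96S.CI.lower3 K hG hv h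

theorem a_eq {v : G} (hv : v ≠ 1) (hm : ∀ g ∈ G, g ≠ 1 → ind v.1 ≤ ind g) :
    a G = 1 / (ind v.1 : ℕ) := by
  have h5 : IsLeast {j : ℕ | ∃ g ∈ G, g ≠ 1 ∧ j = ind g} (ind v.1) := by
    refine ⟨⟨v.1, v.2, fun h => hv (Subtype.ext h), rfl⟩, ?_⟩
    rintro j ⟨g, h6, h7, rfl⟩
    exact hm g h6 h7
  unfold a
  rw [h5.csInf_eq]

theorem central_ind (hG : Transitive G) {z : G} (hz : CentralInvolution z) :
    2 * ind z.1 = n :=
  Pool.Agent.H96S.CI.ind_z hG z hz.1 hz.2.1 hz.2.2

theorem central_exp (hG : Transitive G) {z : G} (hz : CentralInvolution z) :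
    (1 : ℝ) / (ind z.1 : ℕ) = 2 / n := by
  have h4 := central_ind hG hz
  have h6 : (n : ℝ) = 2 * (ind z.1 : ℕ) := by exact_mod_cast h4.symm
  rw [h6, ← div_div, div_self two_ne_zero]

theorem regular_a (hG : Transitive G) {z : G} (hz : CentralInvolution z)
    (hc : Nat.card G = n) : a G = 2 / n := by
  rw [a_eq hz.2.2, central_exp hG hz]
  intro g hg hg1
  have h1 : n ≤ 2 * ind g := Pool.Agent.H96S.CI.ind_regular hG hc g hg hg1
  have h2 := central_ind hG hz
  omega

end

end Pool.Agent.Results.MP_af4c59_nt.CentralInvolutions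

open Pool.Agent.Results.MP_af4c59_nt.CentralInvolutions in
/-- Malle's lower bound by twisting with an involution with disjoint conjugates. -/
theorem Pool.Agent.Results.MP_af4c59_nt.CentralInvolutions.result :
    -- the lower bound with exponent `1 / ind v` holds exactly for the Galois groups over `K`
    (∀ (K : Type) [Field K] [NumberField K] (n : ℕ) (G : Subgroup (Equiv.Perm (Fin n))),
      Transitive G → ∀ v : G, DisjointConjugates v →
        (Lower K n G (1 / (ind v.1 : ℕ)) ↔ IsGaloisGroupOver K G)) ∧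
    -- the exponent is Malle's if `v` has the least index; central involutions
    (∀ (n : ℕ) (G : Subgroup (Equiv.Perm (Fin n))), Transitive G →
      (∀ v : G, v ≠ 1 → (∀ g ∈ G, g ≠ 1 → ind v.1 ≤ ind g) → a G = 1 / (ind v.1 : ℕ)) ∧
      (∀ z : G, CentralInvolution z → DisjointConjugates z ∧ (1 : ℝ) / (ind z.1 : ℕ) = 2 / n ∧
        (Nat.card G = n → a G = 2 / n))) ∧
    -- the wreath products `A ≀ S_m`, over every number field
    (∀ (A : Type) [Group A] [Finite A] (m : ℕ), ((3 * Nat.card A + 2).factorial) ^ 3 ≤ m →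
      ∀ (K : Type) [Field K] [NumberField K],
      (∀ (n : ℕ) (G : Subgroup (Equiv.Perm (Fin n))), Transitive G → Nonempty (G ≃* Wr A m) →
        ∀ v : G, DisjointConjugates v → Lower K n G (1 / (ind v.1 : ℕ))) ∧
      ((∃ c : A, CentralInvolution c) → ∀ (n : ℕ) (G : Subgroup (Equiv.Perm (Fin n))),
        (IsNaturalWreath A m G → a G = 2 / Nat.card A ∧ Lower K n G (a G)) ∧
        (Transitive G → Nonempty (G ≃* Wr A m) → Nat.card G = n →
          a G = 2 / n ∧ Lower K n G (a G)))) ∧
    -- the tops of the towers in the class `Cls K`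
    (∀ (K L H : Type) [Field K] [NumberField K] [Field L] [Algebra K L] [FiniteDimensional K L]
      [IsGalois K L] [Group H] [Finite H] (p : H →* (L ≃ₐ[K] L)), Cls K p →
      ∀ (n : ℕ) (G : Subgroup (Equiv.Perm (Fin n))), Transitive G → Nonempty (G ≃* H) →
        ∀ v : G, DisjointConjugates v → Lower K n G (1 / (ind v.1 : ℕ))) := by
  refine ⟨?_, ?_, ?_, ?_⟩
  · intro K _ _ n G hG v hv
    exact lower_iff K hG hv
  · intro n G hG
    exact ⟨fun v hv hm => a_eq hv hm, fun z hz =>
      ⟨central_dc hz, central_exp hG hz, fun hc => regular_a hG hz hc⟩⟩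
  · intro A _ _ m hm K _ _
    have hm0 : 0 < m := lt_of_lt_of_le (by positivity) hm
    have hg : IsGaloisGroupOver K (Wr A m) := (Pool.Agent.TH444.ML.wr_data K A m hm).2.2
    refine ⟨?_, ?_⟩
    · rintro n G hG ⟨e⟩ v hv
      exact (lower_iff K hG hv).2 (gal_iso e hg)
    · rintro ⟨c, hc, hc2, hc1⟩ n G
      refine ⟨?_, ?_⟩
      · intro hG
        have hG' : Pool.Agent.H96S.CI.NatWr A m G := by
          obtain ⟨f, hf⟩ := hG
          refine ⟨f, fun π => ?_⟩
          rw [hf]
          constructor
          · rintro ⟨ρ, b, h⟩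
            refine ⟨⟨fun j => b (ρ.symm j), ρ⟩, fun x => ?_⟩
            rw [h]
            show _ = (b (ρ.symm (ρ (f x).2)) * (f x).1, ρ (f x).2)
            rw [Equiv.symm_apply_apply]
          · rintro ⟨w, h⟩
            exact ⟨w.right, fun i => w.left (w.right i), fun x => h x⟩
        obtain ⟨-, e, -⟩ := Pool.Agent.H96S.CI.nat_iso hG'
        obtain ⟨v, hv, hsupp, hmin⟩ := Pool.Agent.H96S.CI.nat_dc hG' hm0 hc hc2 hc1
        have htr : Transitive G := Pool.Agent.H96S.CI.nat_trans hG'
        have h2 : 2 * ind v.1 = v.1.support.card :=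
          Pool.Agent.H96S.CI.two_ind (congrArg Subtype.val hv.1)
            (fun h => hv.2.1 (Subtype.ext h))
        have hle : ∀ g ∈ G, g ≠ 1 → ind v.1 ≤ ind g := by
          intro g hg hg1
          have h3 := hmin g hg hg1
          have h4 : 2 * Multiset.card g.cycleType ≤ g.cycleType.sum :=
            Pool.Agent.TH444.ML.two_card_le g
          have h5 : g.cycleType.sum = g.support.card := Equiv.Perm.sum_cycleType g
          have h6 : g.support.card ≤ 2 * ind g := by
            unfold ind
            omega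
          omega
        have ha : a G = 1 / (ind v.1 : ℕ) := a_eq hv.2.1 hle
        have hl := (lower_iff K htr hv).2 (gal_iso e.symm hg)
        refine ⟨?_, by rw [ha]; exact hl⟩
        rw [ha]
        have h7 : (Nat.card A : ℝ) = 2 * (ind v.1 : ℕ) := by
          rw [← hsupp]; exact_mod_cast h2.symm
        rw [h7, ← div_div, div_self two_ne_zero]
      · rintro hG ⟨e⟩ hcard
        obtain ⟨z, hz⟩ : ∃ z : G, CentralInvolution z :=
          central_iso e (Pool.Agent.H96S.CI.wr_central m hm0 c hc hc2 hc1)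
        have ha := regular_a hG hz hcard
        have hl := (lower_iff K hG (central_dc hz)).2 (gal_iso e hg)
        refine ⟨ha, ?_⟩
        rw [ha, ← central_exp hG hz]
        exact hl
  · rintro K L H _ _ _ _ _ _ _ _ p hp n G hG ⟨e⟩ v hv
    have hg : IsGaloisGroupOver K H :=
      Pool.Agent.TH444.ML.gal_nonempty K (AlgebraicClosure K) L H p hp
    exact (lower_iff K hG hv).2 (gal_iso e hg)
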