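import Mathlib
import Pool.Agent.H96S.CJ.T4

/-!
# The weak form of Malle's conjecture for iterated wreath products `C₂ ≀ (C₂ ≀ ... (C₂ ≀ H))`

If `H ≤ S_d` is transitive and `N_{d,K}(X; H) ≪ X ^ (1 + ε)` for all `ε > 0`, then the same holds for
`C₂ ≀ H ≤ S_{2d}`, and the weak form of Malle's conjecture holds for `(K, C₂ ≀ H)` if and only if
`C₂ ≀ H` is a Galois group over `K`. The upper bound holds for all transitive `H` with a faithful
system of `u` blocks of at least `2 u` points. So the weak form holds, over every number field, for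
all iterated wreath products `C₂ ≀ (C₂ ≀ ... (C₂ ≀ H))` where `H` is `A ≀ S_m`, `A` any finite group
and `m ≥ ((3 |A| + 2)!) ^ 3`, in its regular action or in any transitive action with such blocks.
-/

set_option autoImplicit false

open Filter
open Pool.Agent.TH444.TW (Cls)
open Pool.Agent.H391R2 (Wr)

namespace Pool.Agent.Results.MP_af4c59_nt.IteratedOrderTwo

/-- The index of a permutation: `n` minus the number of its cycles, fixed points included. -/
def ind {n : ℕ} (g : Equiv.Perm (Fin n)) : ℕ := g.cycleType.sum - Multiset.card g.cycleType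

/-- `a(G) = 1 / min ind(g)`, the minimum over the `g ≠ 1` in `G`. -/
noncomputable def a {n : ℕ} (G : Subgroup (Equiv.Perm (Fin n))) : ℝ :=
  1 / (sInf {j : ℕ | ∃ g ∈ G, g ≠ 1 ∧ j = ind g} : ℕ)

/-- `N_{n,K}(X; G)`: the number of fields `L` between `K` and its algebraic closure, of degree `n`
over `K`, whose Galois group, acting on the embeddings, is `G` (up to numbering), and whose relative
discriminant has norm at most `X` (that is, `|d_L| ≤ X |d_K| ^ n`). -/
noncomputable def N (K : Type) [Field K] [NumberField K] (n : ℕ)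
    (G : Subgroup (Equiv.Perm (Fin n))) (X : ℝ) : ℕ :=
  Set.ncard {L : IntermediateField K (AlgebraicClosure K) |
    Module.finrank K L = n ∧
    (∃ e : (L →ₐ[K] AlgebraicClosure K) ≃ Fin n, ∀ π : Equiv.Perm (Fin n),
      π ∈ G ↔ ∃ σ : AlgebraicClosure K ≃ₐ[K] AlgebraicClosure K,
        ∀ φ : L →ₐ[K] AlgebraicClosure K, e (σ.toAlgHom.comp φ) = π (e φ)) ∧
    ∃ h : NumberField L,
      ((|@NumberField.discr L _ h| : ℤ) : ℝ) ≤ X * ((|NumberField.discr K| : ℤ) : ℝ) ^ n}

/-- The lower bound with exponent `r`: `c X ^ r ≤ N_{n,K}(X; G)` for some `c > 0` and all large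
`X`. -/
def Lower (K : Type) [Field K] [NumberField K] (n : ℕ) (G : Subgroup (Equiv.Perm (Fin n)))
    (r : ℝ) : Prop :=
  ∃ c : ℝ, 0 < c ∧ ∃ X₀ : ℝ, ∀ X : ℝ, X₀ ≤ X → c * X ^ r ≤ N K n G X

/-- The upper bounds with exponents `r + ε`: for every `ε > 0` there is `c > 0` such that
`N_{n,K}(X; G) < c X ^ (r + ε)` for all large `X`. -/
def Upper (K : Type) [Field K] [NumberField K] (n : ℕ) (G : Subgroup (Equiv.Perm (Fin n)))
    (r : ℝ) : Prop :=
  ∀ ε : ℝ, 0 < ε → ∃ c : ℝ, 0 < c ∧ ∃ X₀ : ℝ, ∀ X : ℝ, X₀ ≤ X → (N K n G X : ℝ) < c * X ^ (r + ε)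

/-- The weak form of Malle's conjecture for `(K, G)`. -/
def WeakMalle (K : Type) [Field K] [NumberField K] (n : ℕ) (G : Subgroup (Equiv.Perm (Fin n))) :
    Prop :=
  Lower K n G (a G) ∧ Upper K n G (a G)

/-- `G` is a transitive group of permutations of a nonempty set. -/
def Transitive {n : ℕ} (G : Subgroup (Equiv.Perm (Fin n))) : Prop :=
  0 < n ∧ ∀ i j : Fin n, ∃ g ∈ G, g i = j

/-- `G` is the Galois group of a finite Galois extension of `K`. -/
def IsGaloisGroupOver (K G : Type) [Field K] [Group G] : Prop :=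
  ∃ L : IntermediateField K (AlgebraicClosure K), FiniteDimensional K L ∧ IsGalois K L ∧
    Nonempty ((L ≃ₐ[K] L) ≃* G)

/-- `G` is, up to a bijection `f` of `{1, ..., n}` with `{1, ..., d} × {0, 1}`, the wreath product
`C₂ ≀ H` of `H ≤ S_d`: it consists of all permutations `π` for which there is `h ∈ H` such that `π`
maps the block `{y} × {0, 1}` to the block `{h y} × {0, 1}`, for all `y`. -/
def IsC2Over {n d : ℕ} (H : Subgroup (Equiv.Perm (Fin d))) (G : Subgroup (Equiv.Perm (Fin n))) :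
    Prop :=
  ∃ f : Fin n ≃ Fin d × Bool, ∀ π : Equiv.Perm (Fin n), π ∈ G ↔
    ∃ h ∈ H, ∀ i, (f (π i)).1 = h (f i).1

/-- `G` has a system of `u` blocks of `w ≥ 2 u` points (the fibres of `q`), on which it acts
faithfully (through `a`). -/
def HasFewBlocks {n : ℕ} (G : Subgroup (Equiv.Perm (Fin n))) : Prop :=
  ∃ (u w : ℕ) (a : G →* Equiv.Perm (Fin u)) (q : Fin n → Fin u), Function.Injective a ∧
    Function.Surjective q ∧ (∀ (g : G) x, q (g.1 x) = a g (q x)) ∧ n = u * w ∧ 2 * u ≤ w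

/-- The iterated wreath products `C₂ ≀ (C₂ ≀ ... (C₂ ≀ H))`, with `H` in the class `S` of permutation
groups; `H` itself is included. -/
inductive Tower (S : ∀ n : ℕ, Subgroup (Equiv.Perm (Fin n)) → Prop) :
    ∀ n : ℕ, Subgroup (Equiv.Perm (Fin n)) → Prop
  | base {n : ℕ} (G : Subgroup (Equiv.Perm (Fin n))) (hG : S n G) : Tower S n G
  | wreath {n d : ℕ} (H : Subgroup (Equiv.Perm (Fin d))) (G : Subgroup (Equiv.Perm (Fin n)))
      (hH : Tower S d H) (hG : IsC2Over H G) : Tower S n G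

/-- The transitive groups isomorphic to `A ≀ S_m` which are regular or have few blocks. -/
def BaseWr (A : Type) [Group A] (m : ℕ) : ∀ n : ℕ, Subgroup (Equiv.Perm (Fin n)) → Prop :=
  fun n G => Transitive G ∧ Nonempty (G ≃* Wr A m) ∧ (Nat.card G = n ∨ HasFewBlocks G)

/-- The transitive groups with few blocks whose map to the trivial group is in the class `Cls K`. -/
def BaseCls (K : Type) [Field K] : ∀ n : ℕ, Subgroup (Equiv.Perm (Fin n)) → Prop :=
  fun _ G => Transitive G ∧ HasFewBlocks G ∧ Cls K (1 : G →* Unit)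

section

variable {K : Type} [Field K] [NumberField K]

theorem upper_of {n : ℕ} {G : Subgroup (Equiv.Perm (Fin n))}
    (h : Pool.Agent.H96S.CJ.UB K n G) : Upper K n G 1 := by
  intro ε hε
  obtain ⟨C, hC0, hC⟩ := h (1 + ε) (by linarith)
  refine ⟨C + 1, by positivity, 1, fun X hX => ?_⟩
  have h1 : (0 : ℝ) < X := by linarith
  have h2 : (0 : ℝ) < X ^ (1 + ε) := by positivity
  have h3 : (N K n G X : ℝ) ≤ C * X ^ (1 + ε) := hC X hX
  linarith [h3]

theorem of_upper {n : ℕ} (hn : 0 < n) {G : Subgroup (Equiv.Perm (Fin n))}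
    (h : Upper K n G 1) : Pool.Agent.H96S.CJ.UB K n G := by
  intro s hs
  obtain ⟨c, hc, X₀, hX₀⟩ := h (s - 1) (by linarith)
  have hmono : ∀ X Y : ℝ, X ≤ Y → N K n G X ≤ N K n G Y := by
    intro X Y hXY
    apply Set.ncard_le_ncard _ (Pool.Agent.H96S.CI.CS_finite K hn G Y)
    rintro L ⟨h1, h2, h3, h4⟩
    exact ⟨h1, h2, h3, h4.trans (mul_le_mul_of_nonneg_right hXY (by positivity))⟩
  refine ⟨c + N K n G (max X₀ 1), by positivity, fun X hX => ?_⟩
  have hX0 : (0 : ℝ) < X := by linarith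
  have h1 : (1 : ℝ) ≤ X ^ s := Real.one_le_rpow hX (by linarith)
  show (N K n G X : ℝ) ≤ _
  rcases le_or_gt (max X₀ 1) X with h2 | h2
  · have h3 := hX₀ X ((le_max_left _ _).trans h2)
    rw [show (1 : ℝ) + (s - 1) = s by ring] at h3
    have h4 : (0 : ℝ) ≤ N K n G (max X₀ 1) * X ^ s := by positivity
    rw [add_mul]
    linarith
  · have h3 : (N K n G X : ℝ) ≤ N K n G (max X₀ 1) := by exact_mod_cast hmono _ _ h2.le
    have h4 : (0 : ℝ) ≤ c * X ^ s := by positivity
    have h5 : (N K n G (max X₀ 1) : ℝ) ≤ N K n G (max X₀ 1) * X ^ s :=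
      le_mul_of_one_le_right (by positivity) h1
    rw [add_mul]
    linarith

theorem c2_transitive {n d : ℕ} {H : Subgroup (Equiv.Perm (Fin d))}
    {G : Subgroup (Equiv.Perm (Fin n))} (hG : IsC2Over H G) (hH : Transitive H) :
    Transitive G := by
  refine ⟨?_, Pool.Agent.H96S.CJ.c2_trans hG hH.2⟩
  have := Pool.Agent.H96S.CJ.c2_card hG
  have := hH.1
  omega

theorem c2_a {n d : ℕ} {H : Subgroup (Equiv.Perm (Fin d))}
    {G : Subgroup (Equiv.Perm (Fin n))} (hG : IsC2Over H G) (hH : Transitive H) : a G = 1 := by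
  obtain ⟨v, hv, h1⟩ := Pool.Agent.H96S.CJ.c2_dc hG hH.1
  have h5 : IsLeast {j : ℕ | ∃ g ∈ G, g ≠ 1 ∧ j = ind g} 1 := by
    refine ⟨⟨v.1, v.2, fun h => hv.2.1 (Subtype.ext h), h1.symm⟩, ?_⟩
    rintro j ⟨g, -, h7, rfl⟩
    exact Pool.Agent.TH444.ML.one_le_ind g h7
  unfold a
  rw [h5.csInf_eq]
  simp

theorem c2_lower {n d : ℕ} {H : Subgroup (Equiv.Perm (Fin d))}
    {G : Subgroup (Equiv.Perm (Fin n))} (hG : IsC2Over H G) (hH : Transitive H) :
    Lower K n G (a G) ↔ IsGaloisGroupOver K G := by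
  obtain ⟨v, hv, h1⟩ := Pool.Agent.H96S.CJ.c2_dc hG hH.1
  have htr := c2_transitive hG hH
  rw [c2_a hG hH]
  constructor
  · rintro ⟨c, hc, X₀, hX⟩
    refine Pool.Agent.H96S.CI.gal_of_CS K htr.1 (X := max X₀ 1) ?_
    have h4 := hX (max X₀ 1) (le_max_left _ _)
    have h5 : (0 : ℝ) < max X₀ 1 := lt_of_lt_of_le one_pos (le_max_right _ _)
    have h6 : (0 : ℝ) < N K n G (max X₀ 1) := lt_of_lt_of_le (by positivity) h4
    have h7 : 0 < N K n G (max X₀ 1) := by exact_mod_cast h6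
    exact Set.nonempty_of_ncard_ne_zero h7.ne'
  · intro h
    have h2 := Pool.Agent.H96S.CI.lower3 K htr.2 hv h
    rw [h1, show (1 : ℝ) / ((1 : ℕ) : ℝ) = 1 by norm_num] at h2
    exact h2

theorem c2_weak {n d : ℕ} {H : Subgroup (Equiv.Perm (Fin d))}
    {G : Subgroup (Equiv.Perm (Fin n))} (hG : IsC2Over H G) (hH : Transitive H)
    (hU : Pool.Agent.H96S.CJ.UB K d H) : WeakMalle K n G ↔ IsGaloisGroupOver K G := by
  have h1 := Pool.Agent.H96S.CJ.c2_UB K hG hH.1 hH.2 hU
  constructor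
  · exact fun h => (c2_lower hG hH).1 h.1
  · intro h
    refine ⟨(c2_lower hG hH).2 h, ?_⟩
    rw [c2_a hG hH]
    exact upper_of h1

/-- what is proved for the groups in the towers -/
theorem tower_all {n : ℕ} {G : Subgroup (Equiv.Perm (Fin n))}
    {S : ∀ n : ℕ, Subgroup (Equiv.Perm (Fin n)) → Prop}
    (hS : ∀ (n : ℕ) (G : Subgroup (Equiv.Perm (Fin n))), S n G → Transitive G ∧
      Pool.Agent.H96S.CJ.UB K n G ∧ Cls K (1 : G →* Unit))
    (h : Tower S n G) :
    Transitive G ∧ Pool.Agent.H96S.CJ.UB K n G ∧ Cls K (1 : G →* Unit) := by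
  induction h with
  | base G hG => exact hS _ G hG
  | wreath H G _ hG ih =>
    obtain ⟨h1, h2, h3⟩ := ih
    exact ⟨c2_transitive hG h1, Pool.Agent.H96S.CJ.c2_UB K hG h1.1 h1.2 h2,
      Pool.Agent.H96S.CJ.c2_cls K hG h3⟩

theorem gal_of_cls {G : Type} [Group G] [Finite G] (h : Cls K (1 : G →* Unit)) :
    IsGaloisGroupOver K G := by
  have hsub : Subsingleton (K ≃ₐ[K] K) := ⟨fun σ τ => by
    ext x
    exact (σ.commutes x).trans (τ.commutes x).symm⟩
  -- from the one-element group to `Gal(K/K)`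
  have h1 : Cls K (1 : Unit →* (K ≃ₐ[K] K)) :=
    Cls.abelian _ 1 (fun _ => Subsingleton.elim _ _) inferInstance
      (fun x y _ _ => Subsingleton.elim _ _)
  have h2 : Cls K ((1 : Unit →* (K ≃ₐ[K] K)).comp (1 : G →* Unit)) := Cls.comp _ _ h1 h
  exact Pool.Agent.TH444.ML.gal_nonempty K (AlgebraicClosure K) K G _ h2

theorem tower_weak {n d : ℕ} {H : Subgroup (Equiv.Perm (Fin d))}
    {G : Subgroup (Equiv.Perm (Fin n))}
    {S : ∀ n : ℕ, Subgroup (Equiv.Perm (Fin n)) → Prop}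
    (hS : ∀ (n : ℕ) (G : Subgroup (Equiv.Perm (Fin n))), S n G → Transitive G ∧
      Pool.Agent.H96S.CJ.UB K n G ∧ Cls K (1 : G →* Unit))
    (h : Tower S d H) (hG : IsC2Over H G) : a G = 1 ∧ WeakMalle K n G := by
  obtain ⟨h1, h2, h3⟩ := tower_all hS h
  exact ⟨c2_a hG h1, (c2_weak hG h1 h2).2 (gal_of_cls (Pool.Agent.H96S.CJ.c2_cls K hG h3))⟩

end

end Pool.Agent.Results.MP_af4c59_nt.IteratedOrderTwo

open Pool.Agent.Results.MP_af4c59_nt.IteratedOrderTwo in
/-- The weak form of Malle's conjecture for iterated wreath products with groups of order two. -/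
theorem Pool.Agent.Results.MP_af4c59_nt.IteratedOrderTwo.result :
    -- from `H` to `C₂ ≀ H`
    (∀ (K : Type) [Field K] [NumberField K] (n d : ℕ) (H : Subgroup (Equiv.Perm (Fin d)))
      (G : Subgroup (Equiv.Perm (Fin n))), Transitive H → IsC2Over H G → Upper K d H 1 →
        a G = 1 ∧ Upper K n G 1 ∧ (WeakMalle K n G ↔ IsGaloisGroupOver K G)) ∧
    -- groups with few blocks
    (∀ (K : Type) [Field K] [NumberField K] (n : ℕ) (G : Subgroup (Equiv.Perm (Fin n))),
      Transitive G → HasFewBlocks G → Upper K n G 1) ∧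
    -- the iterated wreath products over `A ≀ S_m`, over every number field
    (∀ (A : Type) [Group A] [Finite A] (m : ℕ), ((3 * Nat.card A + 2).factorial) ^ 3 ≤ m →
      ∀ (n d : ℕ) (H : Subgroup (Equiv.Perm (Fin d))) (G : Subgroup (Equiv.Perm (Fin n))),
      Tower (BaseWr A m) d H → IsC2Over H G →
      ∀ (K : Type) [Field K] [NumberField K], a G = 1 ∧ WeakMalle K n G) ∧
    -- the iterated wreath products over groups in the class `Cls K`
    (∀ (K : Type) [Field K] [NumberField K] (n d : ℕ) (H : Subgroup (Equiv.Perm (Fin d)))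
      (G : Subgroup (Equiv.Perm (Fin n))), Tower (BaseCls K) d H → IsC2Over H G →
        a G = 1 ∧ WeakMalle K n G) := by
  refine ⟨?_, ?_, ?_, ?_⟩
  · intro K _ _ n d H G hH hG hU
    have hU' := of_upper hH.1 hU
    exact ⟨c2_a hG hH, upper_of (Pool.Agent.H96S.CJ.c2_UB K hG hH.1 hH.2 hU'),
      c2_weak hG hH hU'⟩
  · intro K _ _ n G hG hB
    exact upper_of (Pool.Agent.H96S.CJ.fb_UB K hG.1 hG.2 hB)
  · intro A _ _ m hm n d H G hH hG K _ _
    refine tower_weak (S := BaseWr A m) ?_ hH hG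
    rintro n G ⟨h1, ⟨e⟩, h2⟩
    have hcls : Cls K (1 : G →* Unit) := by
      have h3 : Cls K (1 : Wr A m →* Unit) := Pool.Agent.TH444.ML.wr_cls K A m hm
      refine Cls.quot (1 : G →* Unit) e.symm.toMonoidHom e.symm.surjective ?_
      have h4 : (1 : G →* Unit).comp e.symm.toMonoidHom = (1 : Wr A m →* Unit) := by
        ext x
      rw [h4]
      exact h3
    refine ⟨h1, ?_, hcls⟩
    rcases h2 with h2 | h2
    · obtain ⟨-, ⟨U, hU, hb⟩, -⟩ := Pool.Agent.TH444.ML.wr_data K A m hm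
      obtain ⟨h5, h6⟩ := Pool.Agent.H96S.CJ.core_iso e U hU
      refine Pool.Agent.H96S.CJ.fb_UB K h1.1 h1.2
        (Pool.Agent.H96S.CJ.fb_regular h1.2 h2 _ h5 ?_)
      rw [h6, Nat.card_congr e.toEquiv]
      exact hb
    · exact Pool.Agent.H96S.CJ.fb_UB K h1.1 h1.2 h2
  · intro K _ _ n d H G hH hG
    refine tower_weak (S := BaseCls K) ?_ hH hG
    rintro n G ⟨h1, h2, h3⟩
    exact ⟨h1, Pool.Agent.H96S.CJ.fb_UB K h1.1 h1.2 h2, h3⟩
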