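import Mathlib
import Pool.Agent.Q148.ML.Cnt

/-!
# The upper bound in Malle's weak conjecture over every number field follows from the one over `ℚ`
-/

set_option autoImplicit false

namespace Pool.Agent.Results.MP_af4c59_nt.UpperBoundOverQ

open Equiv

/-- The index of a permutation: `n` minus the number of its cycles, fixed points included. -/
def ind {n : ℕ} (g : Perm (Fin n)) : ℕ := g.cycleType.sum - Multiset.card g.cycleType

/-- The least index `min ind(g)` of the `g ≠ 1` in `G`. -/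
noncomputable def minInd {n : ℕ} (G : Subgroup (Perm (Fin n))) : ℕ :=
  sInf {j : ℕ | ∃ g ∈ G, g ≠ 1 ∧ j = ind g}

/-- `a(G) = 1 / min ind(g)`. -/
noncomputable def a {n : ℕ} (G : Subgroup (Perm (Fin n))) : ℝ := 1 / (minInd G : ℝ)

/-- `G` is transitive. -/
def Transitive {n : ℕ} (G : Subgroup (Perm (Fin n))) : Prop := ∀ i j, ∃ g ∈ G, g i = j

/-- `N_{n,K}(X; G)`: the number of fields `L` between `K` and its algebraic closure, of degree `n`
over `K`, whose Galois group, acting on the embeddings, is `G` (up to numbering), and whose relative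
discriminant has norm at most `X` (that is, `|d_L| ≤ X |d_K| ^ n`). -/
noncomputable def N (K : Type) [Field K] [NumberField K] (n : ℕ) (G : Subgroup (Perm (Fin n)))
    (X : ℝ) : ℕ :=
  Set.ncard {L : IntermediateField K (AlgebraicClosure K) |
    Module.finrank K L = n ∧
    (∃ e : (L →ₐ[K] AlgebraicClosure K) ≃ Fin n, ∀ π : Perm (Fin n),
      π ∈ G ↔ ∃ σ : AlgebraicClosure K ≃ₐ[K] AlgebraicClosure K,
        ∀ φ : L →ₐ[K] AlgebraicClosure K, e (σ.toAlgHom.comp φ) = π (e φ)) ∧
    ∃ h : NumberField L,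
      ((|@NumberField.discr L _ h| : ℤ) : ℝ) ≤ X * ((|NumberField.discr K| : ℤ) : ℝ) ^ n}

/-- `N_{n,K}(X; G) ≤ C X ^ α` for large `X`. -/
def UpperBound (K : Type) [Field K] [NumberField K] (n : ℕ) (G : Subgroup (Perm (Fin n)))
    (α : ℝ) : Prop :=
  ∃ C : ℝ, 0 < C ∧ ∃ X₀ : ℝ, ∀ X : ℝ, X₀ ≤ X → (N K n G X : ℝ) < C * X ^ α

theorem ind_eq {n : ℕ} (g : Perm (Fin n)) : ind g = Q148.ML.ind g := rfl

theorem minInd_eq {n : ℕ} (G : Subgroup (Perm (Fin n))) : minInd G = Q148.ML.minInd G := rfl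

theorem N_eq (K : Type) [Field K] [NumberField K] (n : ℕ) (G : Subgroup (Perm (Fin n))) (X : ℝ) :
    N K n G X = (Q148.ML.Fld K n G (X * ((|NumberField.discr K| : ℤ) : ℝ) ^ n)).ncard := rfl

theorem main (k K : Type) [Field k] [NumberField k] [Field K] [NumberField K] [Algebra k K]
    [FiniteDimensional k K] {n : ℕ} (hn : 2 ≤ n) (G : Subgroup (Perm (Fin n))) (α : ℝ)
    (h : ∀ H : Subgroup (Perm (Fin (Module.finrank k K * n))), Transitive H →
      minInd G ≤ minInd H → UpperBound k (Module.finrank k K * n) H α) :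
    UpperBound K n G α := by
  classical
  set m := Module.finrank k K with hm
  choose! C hC X₀ hX using h
  set dK : ℝ := ((|NumberField.discr K| : ℤ) : ℝ) with hdK
  set dk : ℝ := ((|NumberField.discr k| : ℤ) : ℝ) with hdk
  have hdK0 : 0 < dK := by
    rw [hdK]; exact_mod_cast abs_pos.2 (NumberField.discr_ne_zero K)
  have hdk0 : 0 < dk := by
    rw [hdk]; exact_mod_cast abs_pos.2 (NumberField.discr_ne_zero k)
  set c : ℝ := dK ^ n / dk ^ (m * n) with hc
  have hc0 : 0 < c := by positivity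
  let S : Finset (Subgroup (Perm (Fin (m * n)))) :=
    Finset.univ.filter fun H => Transitive H ∧ minInd G ≤ minInd H
  have hS : ∀ H, H ∈ S ↔ Transitive H ∧ minInd G ≤ minInd H := fun H => by simp [S]
  refine ⟨∑ H ∈ S, C H * c ^ α + 1, ?_, max 1 (∑ H ∈ S, |X₀ H| / c), ?_⟩
  · have : 0 ≤ ∑ H ∈ S, C H * c ^ α := Finset.sum_nonneg fun H hH => by
      have := hC H ((hS H).1 hH).1 ((hS H).1 hH).2
      positivity
    linarith
  · intro X hXX
    have hX1 : 1 ≤ X := (le_max_left _ _).trans hXX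
    have hX0 : 0 < X := by linarith
    have hb : ∀ H ∈ S, (N k (m * n) H (c * X) : ℝ) ≤ C H * c ^ α * X ^ α := by
      intro H hH
      have h1 : |X₀ H| / c ≤ X := by
        have h2 : |X₀ H| / c ≤ ∑ H ∈ S, |X₀ H| / c :=
          Finset.single_le_sum (f := fun H => |X₀ H| / c) (fun _ _ => by positivity) hH
        exact (h2.trans (le_max_right _ _)).trans hXX
      have h3 : X₀ H ≤ c * X := by
        rw [div_le_iff₀ hc0] at h1
        have := le_abs_self (X₀ H)
        linarith
      have h4 := hX H ((hS H).1 hH).1 ((hS H).1 hH).2 (c * X) h3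
      rw [Real.mul_rpow hc0.le hX0.le, ← mul_assoc] at h4
      exact h4.le
    obtain ⟨S', hS', hle⟩ := Q148.ML.ncard_le k K hn G (X * dK ^ n)
    have hSS : S' = S := by
      ext H
      rw [hS', hS]
      rfl
    rw [hSS] at hle
    have h5 : (N K n G X : ℝ) ≤ ∑ H ∈ S, (N k (m * n) H (c * X) : ℝ) := by
      have h6 : N K n G X ≤ ∑ H ∈ S, N k (m * n) H (c * X) := by
        refine hle.trans (le_of_eq (Finset.sum_congr rfl fun H _ => ?_))
        rw [N_eq]
        congr 2
        rw [← hdk, hc]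
        field_simp
      exact_mod_cast h6
    calc (N K n G X : ℝ) ≤ ∑ H ∈ S, (N k (m * n) H (c * X) : ℝ) := h5
      _ ≤ ∑ H ∈ S, C H * c ^ α * X ^ α := Finset.sum_le_sum hb
      _ = (∑ H ∈ S, C H * c ^ α) * X ^ α := by rw [Finset.sum_mul]
      _ < (∑ H ∈ S, C H * c ^ α + 1) * X ^ α := by
          have : 0 < X ^ α := Real.rpow_pos_of_pos hX0 _
          nlinarith

/-- (1) Let `K` be a finite extension of degree `m` of a number field `k`, `n ≥ 2` and
`G ≤ S_n`. If `N_{mn,k}(X; H) = O(X ^ α)` for all transitive `H ≤ S_{mn}` with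
`min ind(H) ≥ min ind(G)`, then `N_{n,K}(X; G) = O(X ^ α)`.
(2) If the upper bound of Malle's weak conjecture holds over `ℚ` for all transitive groups, then it
holds over every number field for all transitive groups. -/
theorem result :
    (∀ (k K : Type) [Field k] [NumberField k] [Field K] [NumberField K] [Algebra k K]
      [FiniteDimensional k K] (n : ℕ), 2 ≤ n → ∀ (G : Subgroup (Perm (Fin n))) (α : ℝ),
      (∀ H : Subgroup (Perm (Fin (Module.finrank k K * n))), Transitive H →
        minInd G ≤ minInd H → UpperBound k (Module.finrank k K * n) H α) →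
      UpperBound K n G α) ∧
    ((∀ (n : ℕ) (H : Subgroup (Perm (Fin n))), 2 ≤ n → Transitive H →
        ∀ ε : ℝ, 0 < ε → UpperBound ℚ n H (a H + ε)) →
      ∀ (K : Type) [Field K] [NumberField K] (n : ℕ) (G : Subgroup (Perm (Fin n))), 2 ≤ n →
        Transitive G → ∀ ε : ℝ, 0 < ε → UpperBound K n G (a G + ε)) := by
  refine ⟨fun k K _ _ _ _ _ _ n hn G α h => main k K hn G α h, ?_⟩
  intro h K _ _ n G hn hG ε hε
  have hm : 0 < Module.finrank ℚ K := Module.finrank_pos
  refine main ℚ K hn G _ fun H hH hle => ?_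
  have hN2 : 2 ≤ Module.finrank ℚ K * n := by nlinarith
  have hpos : 0 < minInd G := by
    rw [minInd_eq]
    obtain ⟨g, hg, hgi⟩ := hG ⟨0, by omega⟩ ⟨1, by omega⟩
    have hg1 : g ≠ 1 := by
      rintro rfl
      simp at hgi
    have hne : {j : ℕ | ∃ g ∈ G, g ≠ 1 ∧ j = Q148.ML.ind g}.Nonempty := ⟨_, g, hg, hg1, rfl⟩
    obtain ⟨g', -, hg'1, hg'⟩ := Nat.sInf_mem hne
    have := Q148.ML.ind_pos hg'1
    unfold Q148.ML.minInd
    rw [hg']
    exact this
  have haH : a H ≤ a G := by
    unfold a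
    have h1 : (0 : ℝ) < minInd G := by exact_mod_cast hpos
    have h2 : (minInd G : ℝ) ≤ minInd H := by exact_mod_cast hle
    exact one_div_le_one_div_of_le h1 h2
  obtain ⟨C, hC, X₀, hX⟩ := h _ H hN2 hH ε hε
  refine ⟨C, hC, max X₀ 1, fun X hX1 => ?_⟩
  have h1 := hX X ((le_max_left _ _).trans hX1)
  refine h1.trans_le ?_
  have h2 : 1 ≤ X := (le_max_right _ _).trans hX1
  exact mul_le_mul_of_nonneg_left (Real.rpow_le_rpow_of_exponent_le h2 (by linarith)) hC.le

end Pool.Agent.Results.MP_af4c59_nt.UpperBoundOverQ
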